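import Pool.Agent.R327.PN.Space

set_option autoImplicit false

/-!
# A regular space on which Bob wins `PONAG` and which is not totally paracompact

The space consists of the reals and of isolated points `(i, j, ξ)`, where `i, j` are real and `ξ` is a
set of reals. A basic neighbourhood of the real `i` consists of `i` and of the points `(i, j, ξ)` and
`(j, i, ξ)` with `j` outside a finite set and `ξ` outside a set of size at most the continuum.
All sets of size at most the continuum are closed and discrete, so Bob covers all reals in his first
move, and then the closed rest consists of isolated points only.
-/

namespace Pool.Agent.Results.MP_74305c_gt.NotTotallyParacompact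

open Pool.Agent.R327.PN

/-- There is an infinite regular Hausdorff space in which Bob has a winning strategy in `PONAG(X)` and
which is not totally paracompact. -/
theorem result : ∃ (X : Type) (_ : TopologicalSpace X),
    Infinite X ∧ T2Space X ∧ RegularSpace X ∧ BobHasWinning X ∧ ¬ TotallyParacompact X :=
  ⟨Sp, inferInstance, inferInstance, inferInstance, inferInstance, Sp.bobHasWinning,
    Sp.not_totallyParacompact⟩

end Pool.Agent.Results.MP_74305c_gt.NotTotallyParacompact
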